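import Pool.Agent.L0h41.PE.A

set_option autoImplicit false

/-!
# Pencils of polynomials `n g + h`: almost primes at the smallest arguments for almost all `n`
-/

namespace Pool.Agent.L0h41.PE

open Finset Filter Polynomial
open Pool.Agent.W123.RP Pool.Agent.H373R2.T7 Pool.Agent.W123.RU Pool.Agent.TH464.PO Pool.Agent.TH464.PW
open Pool.Agent.Y879.AP Pool.Agent.R490.P3b Pool.Agent.R490.LGa Pool.Agent.R490.LGb Pool.Agent.R490.LGd
open Pool.Agent.R490.LGe Pool.Agent.R490.GPg Pool.Agent.R490.GPh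

variable {g h u v : ℤ[X]} {R : ℤ}

/-- the coefficients of `n` -/
def Ag (g : ℤ[X]) : ℕ → ℕ := fun j => (g.eval (j : ℤ)).toNat

/-- the constant terms -/
def Bh (h : ℤ[X]) : ℕ → ℤ := fun j => h.eval (j : ℤ)

lemma Pen.Ag_cast (H : Pen g h u v R) (j : ℕ) : ((Ag g j : ℕ) : ℤ) = g.eval (j : ℤ) :=
  Int.toNat_of_nonneg (H.pos j).le

lemma Pen.Ag_abs (H : Pen g h u v R) (j : ℕ) : Ag g j = (g.eval (j : ℤ)).natAbs := by
  have h1 := H.Ag_cast j
  have h2 := H.pos j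
  omega

lemma Pen.Rs_eq (H : Pen g h u v R) (j j' : ℕ) : Rs (Ag g) (Bh h) j j' =
    g.eval (j : ℤ) * h.eval (j' : ℤ) - g.eval (j' : ℤ) * h.eval (j : ℤ) := by
  unfold Rs Bh
  rw [H.Ag_cast, H.Ag_cast]

lemma Pen.dat (H : Pen g h u v R) : ∃ D0 : ℕ, Dat (Ag g) (Bh h) D0 R.natAbs := by
  obtain ⟨D1, hD1⟩ := size_poly g
  obtain ⟨D2, hD2⟩ := size_poly h
  refine ⟨D1 + D2, ?_, ?_, ?_, ?_, ?_⟩
  · intro j _
    rw [H.Ag_abs]
    have := H.pos j
    omega
  · intro j hj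
    rw [H.Ag_abs]
    exact (hD1 j hj).trans (Nat.pow_le_pow_right (by omega) (by omega))
  · intro j hj
    exact (hD2 j hj).trans (Nat.pow_le_pow_right (by omega) (by omega))
  · intro j _ p hp hR hd hd2
    refine H.cop (j : ℤ) p hR ?_ hd2
    rw [← H.Ag_cast]
    exact_mod_cast hd
  · intro j j' _ _ hne
    rw [H.Rs_eq]
    exact H.inj j j' hne

open Classical in
lemma Pen.rowA (H : Pen g h u v R) (D0 : ℕ) (hD : Dat (Ag g) (Bh h) D0 R.natAbs) (w y K : ℕ)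
    (hw : 1 ≤ w) (hw1 : thr g h R ≤ w) (hw2 : 14 * dd g h ≤ w) :
    ∑ j ∈ Icc 1 K, (tw w y (Ag g j) ^ 3 - 1) ≤
      K * (28 * (dd g h : ℕ) / (w : ℝ)) + ((Vz (2 * (K + 1) ^ (2 * D0)))⁻¹) ^ (14 * dd g h) := by
  obtain ⟨M, hM⟩ : ∃ M, M = 2 * (K + 1) ^ (2 * D0) := ⟨_, rfl⟩
  rw [← hM]
  have h1 := sum_tw3 w y M K (dd g h) (Icc 1 K) (Ag g) (by
      intro j hj
      rw [mem_Icc] at hj
      refine ⟨hD.posA j hj.1, (hD.szA j hj.1).trans ?_⟩
      rw [hM]
      have a1 : (j + 1) ^ D0 ≤ (K + 1) ^ D0 := Nat.pow_le_pow_left (by omega) _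
      have a2 : (K + 1) ^ D0 ≤ (K + 1) ^ (2 * D0) := Nat.pow_le_pow_right (by omega) (by omega)
      omega) (by
      intro T hT
      have h2 := cnt_gen g K (dd g h) T (by
        intro p hp
        have h3 := mem_Pw.1 (hT hp)
        refine ⟨h3.2.2, ?_⟩
        have h4 := roots_le g p h3.2.2 (map_ne_lead g p H.g0 (by
          have : g.leadingCoeff.natAbs ≤ thr g h R := by unfold thr; omega
          omega))
        have h5 : g.natDegree ≤ dd g h := by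
          unfold dd
          have := le_max_left g.natDegree h.natDegree
          omega
        convert h4.trans h5)
      refine le_trans (le_of_eq ?_) h2
      congr 2
      apply filter_congr
      intro j _
      apply forall_congr'
      intro p
      apply forall_congr'
      intro _
      rw [← H.Ag_cast]
      exact Int.natCast_dvd_natCast.symm)
  refine h1.trans ?_
  have h2 := prod_sq' w M (dd g h) (by omega) hw2
  have h3 := prod_one' w M (dd g h)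
  have h4 := mul_le_mul_of_nonneg_left h2 (Nat.cast_nonneg (α := ℝ) K)
  linarith

open Classical in
lemma Pen.rowB (H : Pen g h u v R) (D0 : ℕ) (hD : Dat (Ag g) (Bh h) D0 R.natAbs) (w y K j : ℕ)
    (hw : 1 ≤ w) (hw1 : thr g h R ≤ w) (hw2 : 14 * dd g h ≤ w) (hj : j ∈ Icc 1 K) :
    ∑ j' ∈ Icc 1 K, (if j = j' then 0 else tw w y (Rs (Ag g) (Bh h) j j').natAbs ^ 3 - 1) ≤
      K * (28 * (dd g h : ℕ) / (w : ℝ)) + ((Vz (2 * (K + 1) ^ (2 * D0)))⁻¹) ^ (14 * dd g h) := by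
  have e1 : ∑ j' ∈ Icc 1 K, (if j = j' then 0 else tw w y (Rs (Ag g) (Bh h) j j').natAbs ^ 3 - 1) =
      ∑ j' ∈ (Icc 1 K).erase j, (tw w y (Rs (Ag g) (Bh h) j j').natAbs ^ 3 - 1) := by
    rw [← add_sum_erase _ _ hj, if_pos rfl, zero_add]
    apply sum_congr rfl
    intro j' hj'
    rw [mem_erase] at hj'
    rw [if_neg (Ne.symm hj'.1)]
  rw [e1]
  obtain ⟨M, hM⟩ : ∃ M, M = 2 * (K + 1) ^ (2 * D0) := ⟨_, rfl⟩
  rw [← hM]
  have hj1 := mem_Icc.1 hj
  have h1 := sum_tw3 w y M K (dd g h) ((Icc 1 K).erase j)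
    (fun j' => (Rs (Ag g) (Bh h) j j').natAbs) (by
      intro j' hj'
      rw [mem_erase, mem_Icc] at hj'
      constructor
      · apply Nat.pos_of_ne_zero
        rw [Int.natAbs_ne_zero]
        exact hD.res j j' hj1.1 hj'.2.1 (Ne.symm hj'.1)
      · unfold Rs
        refine (Int.natAbs_sub_le _ _).trans ?_
        rw [Int.natAbs_mul, Int.natAbs_mul, Int.natAbs_natCast, Int.natAbs_natCast, hM]
        have a1 : (j + 1) ^ D0 ≤ (K + 1) ^ D0 := Nat.pow_le_pow_left (by omega) _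
        have a2 : (j' + 1) ^ D0 ≤ (K + 1) ^ D0 := Nat.pow_le_pow_left (by omega) _
        have b1 := Nat.mul_le_mul ((hD.szA j hj1.1).trans a1) ((hD.szB j' hj'.2.1).trans a2)
        have b2 := Nat.mul_le_mul ((hD.szA j' hj'.2.1).trans a2) ((hD.szB j hj1.1).trans a1)
        have e : (K + 1) ^ (2 * D0) = (K + 1) ^ D0 * (K + 1) ^ D0 := by
          rw [two_mul, pow_add]
        rw [e]
        omega) (by
      intro T hT
      have h2 := cnt_gen (C (g.eval (j : ℤ)) * h - C (h.eval (j : ℤ)) * g) K (dd g h) T (by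
        intro p hp
        have h3 := mem_Pw.1 (hT hp)
        refine ⟨h3.2.2, ?_⟩
        have h4 := roots_le _ p h3.2.2 (H.row_ne j p h3.2.2 (by omega))
        convert h4.trans (natDegree_comb _ _))
      refine le_trans ?_ h2
      have h3 : (((Icc 1 K).erase j).filter (fun j' : ℕ => ∀ p ∈ T,
          p ∣ (Rs (Ag g) (Bh h) j j').natAbs)).card ≤
          ((Icc 1 K).filter (fun j' : ℕ => ∀ p ∈ T,
            (p : ℤ) ∣ (C (g.eval (j : ℤ)) * h - C (h.eval (j : ℤ)) * g).eval (j' : ℤ))).card := by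
        apply card_le_card
        intro j' hj'
        rw [mem_filter, mem_erase] at hj'
        rw [mem_filter]
        refine ⟨hj'.1.2, fun p hp => ?_⟩
        have h4 : (p : ℤ) ∣ Rs (Ag g) (Bh h) j j' := Int.natCast_dvd.2 (hj'.2 p hp)
        rw [H.Rs_eq] at h4
        have e : (C (g.eval (j : ℤ)) * h - C (h.eval (j : ℤ)) * g).eval (j' : ℤ) =
            g.eval (j : ℤ) * h.eval (j' : ℤ) - g.eval (j' : ℤ) * h.eval (j : ℤ) := by
          rw [eval_sub, eval_mul, eval_mul, eval_C, eval_C]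
          ring
        rw [e]
        exact h4
      exact_mod_cast h3)
  refine h1.trans ?_
  have h2 := prod_sq' w M (dd g h) (by omega) hw2
  have h3 := prod_one' w M (dd g h)
  have h4 := mul_le_mul_of_nonneg_left h2 (Nat.cast_nonneg (α := ℝ) K)
  linarith

/-- the excess on average -/
lemma Pen.exc_le (H : Pen g h u v R) (w : ℕ) (hw : 14 ≤ w) (hw1 : thr g h R + 14 * dd g h ≤ w) :
    ∃ K1 : ℕ, ∀ K : ℕ, K1 ≤ K → ∀ y : ℕ,
    ∑ j ∈ Icc 1 K, ∑ j' ∈ Icc 1 K, exc (Ag g) (Bh h) w y j j' ≤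
      (28 * (dd g h : ℕ) + 1) * (K : ℝ) ^ 2 / w := by
  classical
  obtain ⟨D0, hD⟩ := H.dat
  obtain ⟨K1, h1⟩ := log_ev (2 * D0) (14 * dd g h) w (by omega)
  refine ⟨K1, fun K hK y => ?_⟩
  have h2 := h1 K hK
  obtain ⟨B, hB⟩ : ∃ B : ℝ, B = K * (28 * (dd g h : ℕ) / (w : ℝ)) + K / w := ⟨_, rfl⟩
  have hA : ∑ j ∈ Icc 1 K, (tw w y (Ag g j) ^ 3 - 1) ≤ B := by
    have := H.rowA D0 hD w y K (by omega) (by omega) (by omega)
    rw [hB]
    linarith
  have hR : ∀ j ∈ Icc 1 K, ∑ j' ∈ Icc 1 K,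
      (if j = j' then 0 else tw w y (Rs (Ag g) (Bh h) j j').natAbs ^ 3 - 1) ≤ B := by
    intro j hj
    have := H.rowB D0 hD w y K j (by omega) (by omega) (by omega) hj
    rw [hB]
    linarith
  have hcell : ∀ j ∈ Icc 1 K, ∀ j' ∈ Icc 1 K, exc (Ag g) (Bh h) w y j j' ≤
      ((tw w y (Ag g j) ^ 3 - 1) + (tw w y (Ag g j') ^ 3 - 1) +
        (if j = j' then 0 else tw w y (Rs (Ag g) (Bh h) j j').natAbs ^ 3 - 1)) / 3 := by
    intro j _ j' _
    unfold exc
    have a1 := cube_ge w y (Ag g j)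
    have a2 := cube_ge w y (Ag g j')
    split_ifs with hne
    · linarith
    · exact amgm3 _ _ _ (one_le_tw w y _) (one_le_tw w y _) (one_le_tw w y _)
  have h3 : ∀ j ∈ Icc 1 K, ∑ j' ∈ Icc 1 K, exc (Ag g) (Bh h) w y j j' ≤
      (K * (tw w y (Ag g j) ^ 3 - 1) + B + B) / 3 := by
    intro j hj
    refine (sum_le_sum (hcell j hj)).trans ?_
    rw [← sum_div, sum_add_distrib, sum_add_distrib, sum_const, nsmul_eq_mul, Nat.card_Icc,
      Nat.add_sub_cancel]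
    have b1 := hR j hj
    linarith
  refine (sum_le_sum h3).trans ?_
  rw [← sum_div, sum_add_distrib, sum_add_distrib, ← mul_sum, sum_const, nsmul_eq_mul, Nat.card_Icc,
    Nat.add_sub_cancel]
  have c1 : (K : ℝ) * ∑ j ∈ Icc 1 K, (tw w y (Ag g j) ^ 3 - 1) ≤ K * B :=
    mul_le_mul_of_nonneg_left hA (Nat.cast_nonneg _)
  have e : (28 * ((dd g h : ℕ) : ℝ) + 1) * (K : ℝ) ^ 2 / w = K * B := by
    rw [hB]
    ring
  rw [e]
  linarith

/-- no fixed prime divisor -/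
def Adm (g h : ℤ[X]) (n : ℕ) : Prop :=
  ∀ p : ℕ, p.Prime → ∃ j : ℕ, ¬ (p : ℤ) ∣ g.eval (j : ℤ) * n + h.eval (j : ℤ)

lemma Pen.per (H : Pen g h u v R) (n p j : ℕ) : (p : ℤ) ∣ (Ag g j : ℤ) * n + Bh h j ↔
    (p : ℤ) ∣ (Ag g (j % p) : ℤ) * n + Bh h (j % p) := by
  have h1 := Pool.Agent.W123.RU.Poly.per1 (C (n : ℤ) * g + h) p j
  rw [eval_add, eval_add, eval_mul, eval_mul, eval_C, eval_C] at h1
  unfold Bh
  rw [H.Ag_cast, H.Ag_cast, mul_comm (g.eval (j : ℤ)), mul_comm (g.eval ((j % p : ℕ) : ℤ))]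
  exact h1

lemma Pen.few (H : Pen g h u v R) (n : ℕ) (hn : Adm g h n) (p : ℕ) (hp : p.Prime) :
    nuB (fun p j => (p : ℤ) ∣ (Ag g j : ℤ) * n + Bh h j) p ≤ dd g h := by
  classical
  obtain ⟨j, hj⟩ := hn p hp
  have e : ∀ t : ℤ, (C (n : ℤ) * g + h).eval t = g.eval t * n + h.eval t := by
    intro t
    rw [eval_add, eval_mul, eval_C]
    ring
  have h1 := roots_le (C (n : ℤ) * g + h) p hp (map_ne _ p hp (j : ℤ) (by rw [e]; exact hj))
  have h2 : (C (n : ℤ) * g + h).natDegree ≤ dd g h := by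
    unfold dd
    have h3 := natDegree_add_le (C (n : ℤ) * g) h
    have h4 := natDegree_C_mul_le (n : ℤ) g
    have h5 : max (C (n : ℤ) * g).natDegree h.natDegree ≤ max g.natDegree h.natDegree :=
      max_le_max h4 le_rfl
    omega
  refine le_trans ?_ (h1.trans h2)
  unfold nuB
  apply card_le_card
  intro r hr
  simp only [mem_filter] at hr ⊢
  refine ⟨hr.1, ?_⟩
  rw [e, ← H.Ag_cast]
  exact hr.2

open Classical in
/-- **Almost primes at the smallest arguments for almost all members of a pencil.** -/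
theorem Pen.main (H : Pen g h u v R) (θ ε : ℝ) (k : ℕ) (hθ : 0 < θ) (hθ1 : θ ≤ 1)
    (hk : 1 / 8 + 25 / (12 * θ) < k) (hε : 0 < ε) :
    ∃ κ Λ : ℝ, 0 < κ ∧ 0 < Λ ∧ ∀ l : ℝ, Λ ≤ l → ∀ᶠ X : ℕ in atTop, ∀ Z L : ℕ,
      (X : ℝ) ^ θ ≤ L → Z + L ≤ X →
      (((Ioc Z (Z + L)).filter (fun n => Adm g h n ∧
        (cnt (Ag g) (Bh h) k ⌊l * Real.log X⌋₊ n ((X : ℝ) ^ (θ / 10)) : ℝ) < κ * l)).card : ℝ) ≤ ε * L := by
  obtain ⟨D0, hD⟩ := H.dat
  refine mainH hD (Adm g h) ?_ θ ε k hθ hθ1 hk hε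
  intro η hη
  exact avg_of2 (dd g h) (by unfold dd; omega) (Ag g) (Bh h) (Adm g h) (thr g h R + 14 * dd g h)
    (28 * (dd g h : ℕ) + 1) (fun w hw hl => H.exc_le w hw hl)
    (fun n hn => ⟨fun p j => H.per n p j, fun p hp => H.few n hn p hp⟩)
    (fun n hn p hp => by
      obtain ⟨j, hj⟩ := hn p hp
      apply nuB_lt _ p (j % p) (Nat.mod_lt _ hp.pos)
      intro hcon
      have h2 := (H.per n p j).2 hcon
      rw [H.Ag_cast] at h2
      exact hj h2) R.natAbs η hη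

end Pool.Agent.L0h41.PE
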