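import Pool.Agent.L0h41.PE.B

set_option autoImplicit false

/-!
# Pencils of polynomials `n g + h`: the reduction to large arguments
-/

namespace Pool.Agent.L0h41.PE

open Finset Filter Polynomial

/-- positivity for large arguments -/
lemma ev_pos (f : ℤ[X]) (hf : 0 < f.leadingCoeff) : ∃ T : ℕ, ∀ t : ℕ, T ≤ t → 0 < f.eval (t : ℤ) := by
  by_cases hd : f.natDegree = 0
  · refine ⟨0, fun t _ => ?_⟩
    rw [eq_C_of_natDegree_eq_zero hd, eval_C]
    unfold leadingCoeff at hf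
    rwa [hd] at hf
  · set P : ℝ[X] := f.map (Int.castRingHom ℝ) with hP
    have hinj : Function.Injective (Int.castRingHom ℝ) := Int.cast_injective
    have h1 : 0 < P.degree := by
      rw [hP, degree_map_eq_of_injective hinj]
      exact natDegree_pos_iff_degree_pos.1 (Nat.pos_of_ne_zero hd)
    have h2 : 0 ≤ P.leadingCoeff := by
      rw [hP, leadingCoeff_map_of_injective hinj]
      simpa using hf.le
    have h3 := (P.tendsto_atTop_of_leadingCoeff_nonneg h1 h2).comp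
      (tendsto_natCast_atTop_atTop (R := ℝ))
    obtain ⟨T, hT⟩ := eventually_atTop.1 (h3.eventually_gt_atTop 0)
    refine ⟨T, fun t ht => ?_⟩
    have h4 := hT t ht
    rw [Function.comp_apply] at h4
    have h5 : P.eval ((t : ℕ) : ℝ) = ((f.eval (t : ℤ) : ℤ) : ℝ) := by
      have h6 : ((t : ℕ) : ℝ) = Int.castRingHom ℝ (t : ℤ) := by simp
      rw [hP, h6, eval_map_apply, eq_intCast]
    rw [h5] at h4
    exact_mod_cast h4

lemma ev_sign (f : ℤ[X]) (hf : f ≠ 0) : ∃ T : ℕ, (∀ t : ℕ, T ≤ t → 0 < f.eval (t : ℤ)) ∨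
    (∀ t : ℕ, T ≤ t → f.eval (t : ℤ) < 0) := by
  rcases lt_or_gt_of_ne (leadingCoeff_ne_zero.2 hf) with h | h
  · obtain ⟨T, hT⟩ := ev_pos (-f) (by rw [leadingCoeff_neg]; omega)
    refine ⟨T, Or.inr fun t ht => ?_⟩
    have := hT t ht
    rw [eval_neg] at this
    omega
  · obtain ⟨T, hT⟩ := ev_pos f h
    exact ⟨T, Or.inl hT⟩

variable {g h u v : ℤ[X]} {R : ℤ}

/-- the quotient is not constant -/
lemma disc_ne (hbez : u * g + v * h = C R) (hR : R ≠ 0) (hdeg : 0 < g.natDegree ∨ 0 < h.natDegree)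
    (hl : 0 < g.leadingCoeff) : g * h.comp (X + C 1) - g.comp (X + C 1) * h ≠ 0 := by
  intro hN
  obtain ⟨T, hT⟩ := ev_pos g hl
  have h1 : ∀ t : ℕ, g.eval (t : ℤ) * h.eval ((t + 1 : ℕ) : ℤ) =
      g.eval ((t + 1 : ℕ) : ℤ) * h.eval (t : ℤ) := by
    intro t
    have e := congrArg (eval (t : ℤ)) hN
    rw [eval_sub, eval_mul, eval_mul, eval_comp, eval_comp, eval_add, eval_X, eval_C, eval_zero] at e
    push_cast
    linarith
  have h2 : ∀ m : ℕ, g.eval (T : ℤ) * h.eval ((T + m : ℕ) : ℤ) =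
      g.eval ((T + m : ℕ) : ℤ) * h.eval (T : ℤ) := by
    intro m
    induction m with
    | zero => simp
    | succ m ih =>
      have h3 := h1 (T + m)
      have h4 := hT (T + m) (by omega)
      have h5 : T + (m + 1) = T + m + 1 := by omega
      rw [h5]
      apply mul_left_cancel₀ h4.ne'
      calc g.eval ((T + m : ℕ) : ℤ) * (g.eval (T : ℤ) * h.eval ((T + m + 1 : ℕ) : ℤ)) =
          g.eval (T : ℤ) * (g.eval ((T + m : ℕ) : ℤ) * h.eval ((T + m + 1 : ℕ) : ℤ)) := by ring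
        _ = g.eval (T : ℤ) * (g.eval ((T + m + 1 : ℕ) : ℤ) * h.eval ((T + m : ℕ) : ℤ)) := by rw [h3]
        _ = g.eval ((T + m + 1 : ℕ) : ℤ) * (g.eval (T : ℤ) * h.eval ((T + m : ℕ) : ℤ)) := by ring
        _ = g.eval ((T + m + 1 : ℕ) : ℤ) * (g.eval ((T + m : ℕ) : ℤ) * h.eval (T : ℤ)) := by rw [ih]
        _ = _ := by ring
  have hgT : g.eval (T : ℤ) ≠ 0 := (hT T le_rfl).ne'
  have h3 : C (g.eval (T : ℤ)) * h - g * C (h.eval (T : ℤ)) = 0 := by
    apply eq_zero_of_infinite_isRoot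
    apply Set.infinite_of_injective_forall_mem (f := fun m : ℕ => ((T + m : ℕ) : ℤ))
    · intro m m' hm
      simp only at hm
      omega
    · intro m
      show IsRoot _ _
      rw [IsRoot.def, eval_sub, eval_mul, eval_mul, eval_C, eval_C]
      have := h2 m
      linarith
  have h4 : C (g.eval (T : ℤ)) * h = g * C (h.eval (T : ℤ)) := sub_eq_zero.1 h3
  have h5 : g * (u * C (g.eval (T : ℤ)) + v * C (h.eval (T : ℤ))) = C (R * g.eval (T : ℤ)) := by
    calc g * (u * C (g.eval (T : ℤ)) + v * C (h.eval (T : ℤ))) =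
        (u * g) * C (g.eval (T : ℤ)) + v * (g * C (h.eval (T : ℤ))) := by ring
      _ = (u * g) * C (g.eval (T : ℤ)) + v * (C (g.eval (T : ℤ)) * h) := by rw [h4]
      _ = (u * g + v * h) * C (g.eval (T : ℤ)) := by ring
      _ = _ := by rw [hbez, C_mul]
  have h6 : g * (u * C (g.eval (T : ℤ)) + v * C (h.eval (T : ℤ))) ≠ 0 := by
    rw [h5]
    exact C_ne_zero.2 (mul_ne_zero hR hgT)
  have h7 := natDegree_mul (left_ne_zero_of_mul h6) (right_ne_zero_of_mul h6)
  rw [h5, natDegree_C] at h7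
  have h8 : (C (g.eval (T : ℤ)) * h).natDegree = h.natDegree := natDegree_C_mul hgT
  have h9 : (g * C (h.eval (T : ℤ))).natDegree ≤ g.natDegree := natDegree_mul_C_le _ _
  rw [← h4, h8] at h9
  omega

lemma natDegree_shift (f : ℤ[X]) (s : ℤ) : (f.comp (X + C s)).natDegree = f.natDegree := by
  rw [natDegree_comp, natDegree_X_add_C, mul_one]

lemma eval_shift (f : ℤ[X]) (s t : ℕ) : (f.comp (X + C (s : ℤ))).eval (t : ℤ) =
    f.eval ((t + s : ℕ) : ℤ) := by
  rw [eval_comp, eval_add, eval_X, eval_C]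
  push_cast
  rfl

theorem exists_pen (hbez : u * g + v * h = C R) (hR : R ≠ 0)
    (hdeg : 0 < g.natDegree ∨ 0 < h.natDegree) (hl : 0 < g.leadingCoeff) :
    ∃ s : ℕ, Pen (g.comp (X + C (s : ℤ))) (h.comp (X + C (s : ℤ))) (u.comp (X + C (s : ℤ)))
      (v.comp (X + C (s : ℤ))) R := by
  obtain ⟨T1, hT1⟩ := ev_pos g hl
  obtain ⟨T2, hT2⟩ := ev_sign _ (disc_ne hbez hR hdeg hl)
  have hN : ∀ t : ℕ, (g * h.comp (X + C 1) - g.comp (X + C 1) * h).eval (t : ℤ) =
      g.eval (t : ℤ) * h.eval ((t + 1 : ℕ) : ℤ) - g.eval ((t + 1 : ℕ) : ℤ) * h.eval (t : ℤ) := by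
    intro t
    rw [eval_sub, eval_mul, eval_mul, eval_comp, eval_comp, eval_add, eval_X, eval_C]
    push_cast
    rfl
  obtain ⟨s, hs⟩ : ∃ s, s = max T1 T2 := ⟨_, rfl⟩
  have hs1 : T1 ≤ s := by rw [hs]; exact le_max_left _ _
  have hs2 : T2 ≤ s := by rw [hs]; exact le_max_right _ _
  have hpos : ∀ t : ℕ, 0 < g.eval ((t + s : ℕ) : ℤ) := fun t => hT1 _ (by omega)
  have hposQ : ∀ t : ℕ, (0 : ℚ) < ((g.eval ((t + s : ℕ) : ℤ) : ℤ) : ℚ) := fun t => by exact_mod_cast hpos t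
  obtain ⟨r, hr⟩ : ∃ r : ℕ → ℚ, r = fun t => ((h.eval ((t + s : ℕ) : ℤ) : ℤ) : ℚ) /
      ((g.eval ((t + s : ℕ) : ℤ) : ℤ) : ℚ) :=
    ⟨_, rfl⟩
  have hrinj : Function.Injective r := by
    rcases hT2 with hT2 | hT2
    · apply StrictMono.injective
      apply strictMono_nat_of_lt_succ
      intro n
      have h1 := hT2 (n + s) (by omega)
      rw [hN] at h1
      have e : n + 1 + s = n + s + 1 := by omega
      rw [hr]
      simp only
      rw [e]
      have h2 := hposQ n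
      have h3 := hposQ (n + 1)
      rw [e] at h3
      rw [div_lt_div_iff₀ h2 h3]
      have h4 : h.eval ((n + s : ℕ) : ℤ) * g.eval ((n + s + 1 : ℕ) : ℤ) <
          h.eval ((n + s + 1 : ℕ) : ℤ) * g.eval ((n + s : ℕ) : ℤ) := by linarith
      exact_mod_cast h4
    · apply StrictAnti.injective
      apply strictAnti_nat_of_succ_lt
      intro n
      have h1 := hT2 (n + s) (by omega)
      rw [hN] at h1
      have e : n + 1 + s = n + s + 1 := by omega
      rw [hr]
      simp only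
      rw [e]
      have h2 := hposQ n
      have h3 := hposQ (n + 1)
      rw [e] at h3
      rw [div_lt_div_iff₀ h3 h2]
      have h4 : h.eval ((n + s + 1 : ℕ) : ℤ) * g.eval ((n + s : ℕ) : ℤ) <
          h.eval ((n + s : ℕ) : ℤ) * g.eval ((n + s + 1 : ℕ) : ℤ) := by linarith
      exact_mod_cast h4
  refine ⟨s, ⟨?_, hR, ?_, ?_, ?_⟩⟩
  · rw [← mul_comp, ← mul_comp, ← add_comp, hbez, C_comp]
  · rw [natDegree_shift, natDegree_shift]
    exact hdeg
  · intro t
    rw [eval_shift]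
    exact hpos t
  · intro a b hab
    rw [eval_shift, eval_shift, eval_shift, eval_shift]
    intro hcon
    apply hab
    apply hrinj
    rw [hr]
    simp only
    rw [div_eq_div_iff (hposQ a).ne' (hposQ b).ne']
    have h4 : h.eval ((a + s : ℕ) : ℤ) * g.eval ((b + s : ℕ) : ℤ) =
        h.eval ((b + s : ℕ) : ℤ) * g.eval ((a + s : ℕ) : ℤ) := by linarith
    exact_mod_cast h4

end Pool.Agent.L0h41.PE
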