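import Pool.Agent.L0h41.PE.D

set_option autoImplicit false

/-!
# Polynomials `f(x, y) = g(x) y + h(x)` along `x + y = n`
-/

namespace Pool.Agent.L0h41.PE

open Finset Filter Polynomial

lemma clear_den (w : ℚ[X]) : ∃ (D : ℤ) (w' : ℤ[X]), D ≠ 0 ∧
    w'.map (Int.castRingHom ℚ) = C (D : ℚ) * w := by
  obtain ⟨b, hb, hb2⟩ := IsLocalization.integerNormalization_spec (nonZeroDivisors ℤ) w
  refine ⟨b, IsLocalization.integerNormalization (nonZeroDivisors ℤ) w, nonZeroDivisors.ne_zero hb, ?_⟩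
  have e : algebraMap ℤ ℚ = Int.castRingHom ℚ := rfl
  rw [e] at hb2
  rw [hb2]
  ext n
  simp

/-- clearing the denominators of a Bezout identity -/
lemma exists_bez (g h : ℤ[X]) (hc : IsCoprime (g.map (Int.castRingHom ℚ)) (h.map (Int.castRingHom ℚ))) :
    ∃ (u v : ℤ[X]) (R : ℤ), u * g + v * h = C R ∧ R ≠ 0 := by
  obtain ⟨u', v', huv⟩ := hc
  obtain ⟨D1, u1, hD1, hu1⟩ := clear_den u'
  obtain ⟨D2, v1, hD2, hv1⟩ := clear_den v'
  refine ⟨C D2 * u1, C D1 * v1, D1 * D2, ?_, mul_ne_zero hD1 hD2⟩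
  apply map_injective (Int.castRingHom ℚ) Int.cast_injective
  rw [Polynomial.map_add, Polynomial.map_mul, Polynomial.map_mul, Polynomial.map_mul, Polynomial.map_mul,
    map_C, map_C, map_C, hu1, hv1]
  have e1 : Int.castRingHom ℚ D1 = (D1 : ℚ) := rfl
  have e2 : Int.castRingHom ℚ D2 = (D2 : ℚ) := rfl
  have e3 : Int.castRingHom ℚ (D1 * D2) = (D1 : ℚ) * (D2 : ℚ) := by rw [map_mul, e1, e2]
  rw [e1, e2, e3, C_mul]
  calc C (D2 : ℚ) * (C (D1 : ℚ) * u') * g.map (Int.castRingHom ℚ) +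
        C (D1 : ℚ) * (C (D2 : ℚ) * v') * h.map (Int.castRingHom ℚ) =
      C (D1 : ℚ) * C (D2 : ℚ) * (u' * g.map (Int.castRingHom ℚ) + v' * h.map (Int.castRingHom ℚ)) := by ring
    _ = _ := by rw [huv, mul_one]

end Pool.Agent.L0h41.PE
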