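import Pool.Agent.R490.GPi

set_option autoImplicit false

/-!
# Pencils of polynomials `n g + h`: roots modulo primes
-/

namespace Pool.Agent.L0h41.PE

open Finset Filter Polynomial
open Pool.Agent.W123.RP Pool.Agent.H373R2.T7 Pool.Agent.W123.RU Pool.Agent.TH464.PO Pool.Agent.TH464.PW
open Pool.Agent.Y879.AP Pool.Agent.R490.P3b Pool.Agent.R490.LGa Pool.Agent.R490.LGb Pool.Agent.R490.LGd
open Pool.Agent.R490.LGe Pool.Agent.R490.GPg Pool.Agent.R490.GPh

/-- a pencil `n g + h` with coprime `g`, `h` -/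
structure Pen (g h u v : ℤ[X]) (R : ℤ) : Prop where
  bez : u * g + v * h = C R
  R0 : R ≠ 0
  deg : 0 < g.natDegree ∨ 0 < h.natDegree
  pos : ∀ t : ℕ, 0 < g.eval (t : ℤ)
  inj : ∀ s t : ℕ, s ≠ t → g.eval (s : ℤ) * h.eval (t : ℤ) - g.eval (t : ℤ) * h.eval (s : ℤ) ≠ 0

open Classical in
/-- the number of roots modulo a prime -/
lemma roots_le (f : ℤ[X]) (p : ℕ) (hp : p.Prime) (hg0 : f.map (Int.castRingHom (ZMod p)) ≠ 0) :
    ((Finset.range p).filter (fun a : ℕ => (p : ℤ) ∣ f.eval (a : ℤ))).card ≤ f.natDegree := by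
  have : Fact p.Prime := ⟨hp⟩
  set g : (ZMod p)[X] := f.map (Int.castRingHom (ZMod p)) with hg
  have hdeg : g.natDegree ≤ f.natDegree := natDegree_map_le
  calc ((Finset.range p).filter (fun a : ℕ => (p : ℤ) ∣ f.eval (a : ℤ))).card
      ≤ g.roots.toFinset.card := by
        apply Finset.card_le_card_of_injOn (fun a : ℕ => (a : ZMod p))
        · intro a ha
          rw [Finset.mem_coe, Finset.mem_filter] at ha
          rw [Finset.mem_coe, Multiset.mem_toFinset, mem_roots hg0, IsRoot.def, hg]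
          have h4 : eval ((a : ℤ) : ZMod p) (f.map (Int.castRingHom (ZMod p))) =
              ((f.eval (a : ℤ) : ℤ) : ZMod p) := by
            have := eval_map_apply (Int.castRingHom (ZMod p)) (p := f) (a : ℤ)
            simpa using this
          have h5 : ((f.eval (a : ℤ) : ℤ) : ZMod p) = 0 :=
            (ZMod.intCast_zmod_eq_zero_iff_dvd _ _).2 ha.2
          rw [← h5, ← h4]
          congr 1
          push_cast
          rfl
        · intro a ha b hb hab
          rw [Finset.mem_coe, Finset.mem_filter, Finset.mem_range] at ha hb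
          have h1 : (a : ZMod p) = b := hab
          rw [ZMod.natCast_eq_natCast_iff'] at h1
          rwa [Nat.mod_eq_of_lt ha.1, Nat.mod_eq_of_lt hb.1] at h1
    _ ≤ Multiset.card g.roots := Multiset.toFinset_card_le _
    _ ≤ g.natDegree := card_roots' g
    _ ≤ f.natDegree := hdeg

/-- a polynomial with a value prime to `p` is not zero modulo `p` -/
lemma map_ne (f : ℤ[X]) (p : ℕ) (hp : p.Prime) (t : ℤ) (ht : ¬ (p : ℤ) ∣ f.eval t) :
    f.map (Int.castRingHom (ZMod p)) ≠ 0 := by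
  have : Fact p.Prime := ⟨hp⟩
  intro h
  apply ht
  rw [← ZMod.intCast_zmod_eq_zero_iff_dvd]
  have h4 := eval_map_apply (Int.castRingHom (ZMod p)) (p := f) t
  rw [h, eval_zero] at h4
  simpa using h4.symm

lemma map_ne_lead (f : ℤ[X]) (p : ℕ) (hf : f ≠ 0) (hl : f.leadingCoeff.natAbs < p) :
    f.map (Int.castRingHom (ZMod p)) ≠ 0 := by
  intro h
  have h3 : (f.map (Int.castRingHom (ZMod p))).coeff f.natDegree = 0 := by rw [h, coeff_zero]
  rw [coeff_map, eq_intCast] at h3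
  have h4 := (ZMod.intCast_zmod_eq_zero_iff_dvd _ _).1 h3
  have h5 : p ∣ f.leadingCoeff.natAbs := Int.natCast_dvd.1 h4
  have h6 := Nat.le_of_dvd (Nat.pos_of_ne_zero (Int.natAbs_ne_zero.2 (leadingCoeff_ne_zero.2 hf))) h5
  omega

variable {g h u v : ℤ[X]} {R : ℤ}

lemma Pen.cop (H : Pen g h u v R) (t : ℤ) (p : ℕ) (hR : R.natAbs < p) (h1 : (p : ℤ) ∣ g.eval t)
    (h2 : (p : ℤ) ∣ h.eval t) : False := by
  have e := congrArg (eval t) H.bez
  rw [eval_add, eval_mul, eval_mul, eval_C] at e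
  have h3 : (p : ℤ) ∣ R := by
    rw [← e]
    exact dvd_add (h1.mul_left _) (h2.mul_left _)
  have h4 : p ∣ R.natAbs := Int.natCast_dvd.1 h3
  have h5 := Nat.le_of_dvd (Nat.pos_of_ne_zero (Int.natAbs_ne_zero.2 H.R0)) h4
  omega

lemma Pen.g0 (H : Pen g h u v R) : g ≠ 0 := by
  rintro rfl
  have := H.pos 0
  simp at this

/-- the threshold -/
def thr (g h : ℤ[X]) (R : ℤ) : ℕ := R.natAbs + g.leadingCoeff.natAbs + h.leadingCoeff.natAbs

/-- the polynomials `g(s) h - h(s) g` are not zero modulo large primes -/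
lemma Pen.row_ne (H : Pen g h u v R) (s : ℕ) (p : ℕ) (hp : p.Prime) (hR : thr g h R < p) :
    (C (g.eval (s : ℤ)) * h - C (h.eval (s : ℤ)) * g).map (Int.castRingHom (ZMod p)) ≠ 0 := by
  have : Fact p.Prime := ⟨hp⟩
  unfold thr at hR
  have hg0 := H.g0
  have hG := map_ne_lead g p hg0 (by omega)
  set φ := Int.castRingHom (ZMod p) with hφ
  intro hcon
  rw [Polynomial.map_sub, Polynomial.map_mul, Polynomial.map_mul, map_C, map_C] at hcon
  set a := φ (g.eval (s : ℤ)) with ha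
  set b := φ (h.eval (s : ℤ)) with hb
  have hR0 : φ R ≠ 0 := by
    rw [hφ, eq_intCast, Ne, ZMod.intCast_zmod_eq_zero_iff_dvd]
    intro hd
    have h4 : p ∣ R.natAbs := Int.natCast_dvd.1 hd
    have h5 := Nat.le_of_dvd (Nat.pos_of_ne_zero (Int.natAbs_ne_zero.2 H.R0)) h4
    omega
  have hbez : u.map φ * g.map φ + v.map φ * h.map φ = C (φ R) := by
    rw [← Polynomial.map_mul, ← Polynomial.map_mul, ← Polynomial.map_add, H.bez, map_C]
  by_cases ha0 : a = 0
  · have hb0 : b ≠ 0 := by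
      intro hb0
      rw [ha, hφ, eq_intCast, ZMod.intCast_zmod_eq_zero_iff_dvd] at ha0
      rw [hb, hφ, eq_intCast, ZMod.intCast_zmod_eq_zero_iff_dvd] at hb0
      exact H.cop (s : ℤ) p (by omega) ha0 hb0
    rw [ha0, C_0, zero_mul, zero_sub, neg_eq_zero] at hcon
    rcases mul_eq_zero.1 hcon with h1 | h1
    · exact hb0 (C_eq_zero.1 h1)
    · exact hG h1
  · -- `a h = b g`
    have e1 : C a * h.map φ = C b * g.map φ := sub_eq_zero.1 hcon
    have e2 : g.map φ * (C a * u.map φ + C b * v.map φ) = C (a * φ R) := by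
      calc g.map φ * (C a * u.map φ + C b * v.map φ) =
          C a * (u.map φ * g.map φ) + v.map φ * (C b * g.map φ) := by ring
        _ = C a * (u.map φ * g.map φ) + v.map φ * (C a * h.map φ) := by rw [e1]
        _ = C a * (u.map φ * g.map φ + v.map φ * h.map φ) := by ring
        _ = C (a * φ R) := by rw [hbez, C_mul]
    have e3 : a * φ R ≠ 0 := mul_ne_zero ha0 hR0
    have hdg : (g.map φ).natDegree = 0 := by
      have h1 : g.map φ * (C a * u.map φ + C b * v.map φ) ≠ 0 := by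
        rw [e2]
        exact C_ne_zero.2 e3
      have h2 := natDegree_mul (left_ne_zero_of_mul h1) (right_ne_zero_of_mul h1)
      rw [e2, natDegree_C] at h2
      omega
    have hdh : (h.map φ).natDegree = 0 := by
      have h1 : (C a * h.map φ).natDegree = (h.map φ).natDegree := natDegree_C_mul ha0
      rw [← h1, e1]
      have h2 := natDegree_C_mul_le b (g.map φ)
      omega
    rcases H.deg with hd | hd
    · have h1 : (g.map φ).coeff g.natDegree = 0 := by
        apply coeff_eq_zero_of_natDegree_lt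
        omega
      rw [coeff_map, hφ, eq_intCast, ZMod.intCast_zmod_eq_zero_iff_dvd] at h1
      have h5 : p ∣ g.leadingCoeff.natAbs := Int.natCast_dvd.1 h1
      have h6 := Nat.le_of_dvd (Nat.pos_of_ne_zero (Int.natAbs_ne_zero.2 (leadingCoeff_ne_zero.2 hg0))) h5
      omega
    · have h1 : (h.map φ).coeff h.natDegree = 0 := by
        apply coeff_eq_zero_of_natDegree_lt
        omega
      rw [coeff_map, hφ, eq_intCast, ZMod.intCast_zmod_eq_zero_iff_dvd] at h1
      have hh0 : h ≠ 0 := by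
        rintro rfl
        rw [natDegree_zero] at hd
        omega
      have h5 : p ∣ h.leadingCoeff.natAbs := Int.natCast_dvd.1 h1
      have h6 := Nat.le_of_dvd (Nat.pos_of_ne_zero (Int.natAbs_ne_zero.2 (leadingCoeff_ne_zero.2 hh0))) h5
      omega

/-- the degree -/
def dd (g h : ℤ[X]) : ℕ := max g.natDegree h.natDegree + 1

lemma natDegree_comb (a b : ℤ) : (C a * h - C b * g).natDegree ≤ dd g h := by
  unfold dd
  have h1 := natDegree_sub_le (C a * h) (C b * g)
  have h2 := natDegree_C_mul_le a h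
  have h3 := natDegree_C_mul_le b g
  have h4 : max (C a * h).natDegree (C b * g).natDegree ≤ max g.natDegree h.natDegree := by
    apply max_le
    · exact h2.trans (le_max_right _ _)
    · exact h3.trans (le_max_left _ _)
  omega

open Classical in
/-- the arguments with all values divisible -/
lemma cnt_gen (f : ℤ[X]) (K D : ℕ) (T : Finset ℕ) (hT : ∀ p ∈ T, p.Prime ∧
    ((range p).filter (fun a : ℕ => (p : ℤ) ∣ f.eval (a : ℤ))).card ≤ D) :
    (((Icc 1 K).filter (fun j : ℕ => ∀ p ∈ T, (p : ℤ) ∣ f.eval (j : ℤ))).card : ℝ) ≤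
      (D : ℝ) ^ T.card * (K / (∏ p ∈ T, (p : ℝ)) + 1) := by
  have h3 := count_sys (fun p a => (p : ℤ) ∣ f.eval (a : ℤ)) K T (fun p hp => (hT p hp).1) 1 le_rfl
    (fun p hp hd => (hT p hp).1.one_lt.ne' (Nat.dvd_one.1 hd)) 0
  have e1 : (Icc 1 K).filter (fun n => n ≡ 0 [MOD 1] ∧ ∀ p ∈ T, (p : ℤ) ∣ f.eval ((n % p : ℕ) : ℤ)) =
      (Icc 1 K).filter (fun j : ℕ => ∀ p ∈ T, (p : ℤ) ∣ f.eval (j : ℤ)) := by
    apply filter_congr
    intro n _
    constructor
    · rintro ⟨_, h⟩ p hp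
      exact (Pool.Agent.W123.RU.Poly.per1 f p n).2 (h p hp)
    · intro h
      exact ⟨Nat.modEq_one, fun p hp => (Pool.Agent.W123.RU.Poly.per1 f p n).1 (h p hp)⟩
  rw [e1, Nat.cast_one, div_one] at h3
  have hν : ∀ p ∈ T, (((range p).filter (fun a : ℕ => (p : ℤ) ∣ f.eval (a : ℤ))).card : ℝ) ≤ D := by
    intro p hp
    exact_mod_cast (hT p hp).2
  have h4 : ∏ p ∈ T, (((range p).filter (fun a : ℕ => (p : ℤ) ∣ f.eval (a : ℤ))).card : ℝ) ≤
      (D : ℝ) ^ T.card := by
    rw [← prod_const]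
    exact Finset.prod_le_prod (fun _ _ => Nat.cast_nonneg _) hν
  have h5 : ∏ p ∈ T, ((((range p).filter (fun a : ℕ => (p : ℤ) ∣ f.eval (a : ℤ))).card : ℝ) / p) ≤
      (D : ℝ) ^ T.card / ∏ p ∈ T, (p : ℝ) := by
    rw [prod_div_distrib]
    exact div_le_div_of_nonneg_right h4 (prod_nonneg fun _ _ => Nat.cast_nonneg _)
  have h6 := (abs_le.1 h3).2
  have h7 : (K : ℝ) * ∏ p ∈ T, ((((range p).filter (fun a : ℕ => (p : ℤ) ∣ f.eval (a : ℤ))).card : ℝ) / p) ≤
      K * ((D : ℝ) ^ T.card / ∏ p ∈ T, (p : ℝ)) := mul_le_mul_of_nonneg_left h5 (Nat.cast_nonneg _)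
  have e : (D : ℝ) ^ T.card * (K / (∏ p ∈ T, (p : ℝ)) + 1) =
      K * ((D : ℝ) ^ T.card / ∏ p ∈ T, (p : ℝ)) + (D : ℝ) ^ T.card := by ring
  rw [e]
  linarith

end Pool.Agent.L0h41.PE
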