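import Pool.Agent.L0h41.PE.C

set_option autoImplicit false

/-!
# Pencils of polynomials `n g + h`: the theorem
-/

namespace Pool.Agent.L0h41.PE

open Finset Filter Polynomial
open Pool.Agent.R490.LGb

variable {g h u v : ℤ[X]} {R : ℤ}

open Classical in
/-- the number of the `1 ≤ t ≤ T` for which `g(t) n + h(t) ≥ 2` has at most `k` prime factors, all of
them at least `w` -/
noncomputable def cntT (g h : ℤ[X]) (k n T : ℕ) (w : ℝ) : ℕ :=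
  ((Icc 1 T).filter (fun t : ℕ => 2 ≤ g.eval (t : ℤ) * n + h.eval (t : ℤ) ∧
    (g.eval (t : ℤ) * n + h.eval (t : ℤ)).toNat.primeFactorsList.length ≤ k ∧
    ∀ p : ℕ, p.Prime → (p : ℤ) ∣ g.eval (t : ℤ) * n + h.eval (t : ℤ) → w ≤ p)).card

lemma adm_shift (n s : ℕ) (hn : Adm g h n) :
    Adm (g.comp (X + C (s : ℤ))) (h.comp (X + C (s : ℤ))) n := by
  intro p hp
  obtain ⟨j, hj⟩ := hn p hp
  refine ⟨j + s * (p - 1), ?_⟩
  rw [eval_shift, eval_shift]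
  have e0 : j + s * (p - 1) + s = j + s * p := by
    obtain ⟨q, hq⟩ : ∃ q, p = q + 1 := ⟨p - 1, by have := hp.one_lt; omega⟩
    rw [hq, Nat.add_sub_cancel]
    ring
  rw [e0]
  intro hd
  apply hj
  have e : ∀ t : ℤ, (C (n : ℤ) * g + h).eval t = g.eval t * n + h.eval t := by
    intro t
    rw [eval_add, eval_mul, eval_C]
    ring
  rw [← e] at hd ⊢
  have h1 : ((j + s * p : ℕ) : ℤ) - (j : ℤ) ∣ (C (n : ℤ) * g + h).eval ((j + s * p : ℕ) : ℤ) -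
      (C (n : ℤ) * g + h).eval (j : ℤ) := sub_dvd_eval_sub _ _ _
  have h2 : (p : ℤ) ∣ ((j + s * p : ℕ) : ℤ) - (j : ℤ) := ⟨s, by push_cast; ring⟩
  exact (dvd_iff_dvd_of_dvd_sub (h2.trans h1)).1 hd

lemma cnt_shift (s : ℕ) (H : Pen (g.comp (X + C (s : ℤ))) (h.comp (X + C (s : ℤ))) (u.comp (X + C (s : ℤ)))
      (v.comp (X + C (s : ℤ))) R) (k n K T : ℕ) (w : ℝ) (hKT : K + s ≤ T) :
    cnt (Ag (g.comp (X + C (s : ℤ)))) (Bh (h.comp (X + C (s : ℤ)))) k K n w ≤ cntT g h k n T w := by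
  classical
  unfold cnt cntT
  apply card_le_card_of_injOn (fun j => j + s)
  · intro j hj
    rw [mem_coe, mem_filter, mem_Icc] at hj
    obtain ⟨⟨h1, h2⟩, h3, h4, h5⟩ := hj
    unfold Bh at h3 h4 h5
    rw [H.Ag_cast, eval_shift, eval_shift] at h3 h4
    rw [H.Ag_cast, eval_shift, eval_shift] at h5
    show j + s ∈ _
    rw [mem_coe, mem_filter, mem_Icc]
    exact ⟨⟨by omega, by omega⟩, h3, h4, h5⟩
  · intro a _ b _ hab
    simpa using hab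

open Classical in
/-- **Almost primes at the smallest arguments for almost all members of a pencil.** -/
theorem pencil (hbez : u * g + v * h = C R) (hR : R ≠ 0)
    (hdeg : 0 < g.natDegree ∨ 0 < h.natDegree) (hl : 0 < g.leadingCoeff)
    (θ ε : ℝ) (k : ℕ) (hθ : 0 < θ) (hθ1 : θ ≤ 1)
    (hk : 1 / 8 + 25 / (12 * θ) < k) (hε : 0 < ε) :
    ∃ κ Λ : ℝ, 0 < κ ∧ 0 < Λ ∧ ∀ l : ℝ, Λ ≤ l → ∀ᶠ X : ℕ in atTop, ∀ Z L : ℕ,
      (X : ℝ) ^ θ ≤ L → Z + L ≤ X →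
      (((Ioc Z (Z + L)).filter (fun n => Adm g h n ∧
        (cntT g h k n ⌊l * Real.log X⌋₊ ((X : ℝ) ^ (θ / 10)) : ℝ) < κ * l)).card : ℝ) ≤ ε * L := by
  obtain ⟨s, H⟩ := exists_pen hbez hR hdeg hl
  obtain ⟨κ, Λ, hκ, hΛ, hmain⟩ := H.main θ ε k hθ hθ1 hk hε
  refine ⟨κ / 2, 2 * Λ, by positivity, by positivity, ?_⟩
  intro l hlΛ
  have hl0 : 0 < l := lt_of_lt_of_le (by positivity) hlΛ
  have ev1 : ∀ᶠ X : ℕ in atTop, (s : ℝ) ≤ l / 2 * Real.log X :=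
    (Real.tendsto_log_atTop.comp tendsto_natCast_atTop_atTop).const_mul_atTop
      (by positivity : (0 : ℝ) < l / 2) |>.eventually_ge_atTop _
  filter_upwards [hmain (l / 2) (by linarith), ev1] with X h1 h2 Z L hZ hL
  refine le_trans ?_ (h1 Z L hZ hL)
  apply Nat.cast_le.2
  apply card_le_card
  intro n hn
  rw [mem_filter] at hn ⊢
  obtain ⟨hn1, hn2, hn3⟩ := hn
  refine ⟨hn1, adm_shift n s hn2, ?_⟩
  have hlog : 0 ≤ l / 2 * Real.log X := (Nat.cast_nonneg s).trans h2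
  have h3 : ⌊l / 2 * Real.log X⌋₊ + s ≤ ⌊l * Real.log X⌋₊ := by
    apply Nat.le_floor
    push_cast
    have := Nat.floor_le hlog
    linarith
  have h4 := cnt_shift s H k n ⌊l / 2 * Real.log X⌋₊ ⌊l * Real.log X⌋₊ ((X : ℝ) ^ (θ / 10)) h3
  have h5 : (cnt (Ag (g.comp (Polynomial.X + C (s : ℤ)))) (Bh (h.comp (Polynomial.X + C (s : ℤ)))) k
      ⌊l / 2 * Real.log X⌋₊ n ((X : ℝ) ^ (θ / 10)) : ℝ) ≤
      (cntT g h k n ⌊l * Real.log X⌋₊ ((X : ℝ) ^ (θ / 10)) : ℝ) := by exact_mod_cast h4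
  linarith

end Pool.Agent.L0h41.PE
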